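import Pool.Agent.KMix.Defs
import Pool.Agent.FLN.Res

/-!
# Varieties of lines
-/

set_option autoImplicit false

noncomputable section

namespace Pool.Agent.KMix

open Pool.Agent.ZCyc Pool.Agent.Dess
open scoped Classical

variable {k : Type} [Field k] [IsAlgClosed k] [CharZero k] {F : MvPolynomial (Fin 6) k}

omit [IsAlgClosed k] in
theorem lines_base (hF : (Var.lines F).Smooth) : Base (.lines F) := by
  intro K _ _ _ y
  obtain ⟨x, -, hx⟩ := CUB.exists_base (F := F) ⟨hF.1, hF.2⟩ K y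
  exact ⟨x, hx⟩

theorem lines_fin (hF : (Var.lines F).Smooth) :
    Fin1 (.lines F) := by
  obtain ⟨N₀, hN⟩ := CUB.FLN.main_pow (F := F) ⟨hF.1, hF.2⟩ 1
  refine ⟨N₀ + 1, N₀.succ_pos, fun x => ?_⟩
  have h1 := hN (N₀ + 1) (Nat.le_succ _) fun j => Finsupp.single (fun _ => x j) (1 : ℚ)
  have hle : CUB.FLN.RatM F (N₀ + 1) 1 ≤ (Rat1 (.lines F) (N₀ + 1)).comap
      (Finsupp.lmapDomain ℚ ℚ fun (x : Fin (N₀ + 1) → Fin 1 → CUB.Ln F k) j => x j 0) := by
    refine Submodule.span_le.2 ?_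
    rintro _ ⟨K, i1, i2, i3, x, y, f, D, hf, hD, hval, rfl⟩
    change Finsupp.lmapDomain ℚ ℚ _ _ ∈ Rat1 (.lines F) (N₀ + 1)
    rw [map_finsuppSum]
    refine Submodule.subset_span ⟨K, i1, i2, i3, fun j => x j 0, fun v j => y v j 0, f, D,
      hf, hD, fun v i => hval v i 0, ?_⟩
    exact Finsupp.sum_congr fun v _ => by
      rw [Finsupp.lmapDomain_apply, Finsupp.mapDomain_single]
  have h2 := hle h1
  rw [Submodule.mem_comap] at h2
  have h3 : ∀ {T : Type} {n : ℕ} (x : Fin n → T),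
      CUB.alt (fun j => Finsupp.single (x j) (1 : ℚ)) =
      ∑ τ : Equiv.Perm (Fin n), (Equiv.Perm.sign τ : ℤ) •
        Finsupp.single (fun j => x (τ j)) (1 : ℚ) := by
    intro T n x
    unfold CUB.alt
    refine Finset.sum_congr rfl fun τ _ => ?_
    congr 1
    have h := GT.ext_single (fun j => x (τ j)) fun _ => (1 : ℚ)
    rw [Finset.prod_const_one] at h
    exact h
  rw [h3, map_sum] at h2
  rw [h3]
  refine Eq.mp (congrArg (· ∈ Rat1 (.lines F) (N₀ + 1)) ?_) h2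
  refine Finset.sum_congr rfl fun τ _ => ?_
  rw [map_zsmul, Finsupp.lmapDomain_apply, Finsupp.mapDomain_single]
  rfl

end Pool.Agent.KMix
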