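import Pool.Agent.KMix.Deg
import Pool.Agent.Kim.Core3
import Pool.Agent.GT.Mov
import Pool.Agent.TInc.EmbC

/-!
# Double planes

The values of the points of the double plane, and the comparison of the two definitions of rational
equivalence: Galois-stable families over `k(t)`, and divisors of functions on curves.
-/

set_option autoImplicit false

noncomputable section

namespace Pool.Agent.KMix

open Pool.Agent.ZCyc Pool.Agent.Dess
open Pool.Agent.VFP (Om tt)
open scoped Classical LinearAlgebra.Projectivization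

variable {k : Type} [Field k] {F : MvPolynomial (Fin 3) k}

section Points

variable {K : Type} [Field K] [Algebra k K]

/-- `a`, `b` are weighted homogeneous coordinates of the point `X` -/
private def Crd (X : Dp F K) (a : Fin 3 → K) (b : K) : Prop :=
  ∃ c : K, c ≠ 0 ∧ (∀ i, X.1.1.rep i = c * a i) ∧ X.1.2 = c ^ 3 * b

/-- the point with given weighted homogeneous coordinates -/
private theorem exists_mk (hF : F.IsHomogeneous 6) {a : Fin 3 → K} {b : K} (ha : a ≠ 0)
    (h : b ^ 2 = MvPolynomial.aeval a F) : ∃ X : Dp F K, Crd X a b := by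
  obtain ⟨c, hc⟩ := Projectivization.exists_smul_eq_mk_rep K a ha
  have h1 : (fun i => (c : K) * a i) = (Projectivization.mk K a ha).rep := by
    rw [← hc]
    rfl
  refine ⟨⟨(Projectivization.mk K a ha, (c : K) ^ 3 * b), ?_⟩, (c : K), c.ne_zero,
    fun i => (congrFun h1 i).symm, rfl⟩
  rw [← h1, GT.aeval_smul_homog hF, ← h]
  ring

private theorem crd_rep (X : Dp F K) : Crd X X.1.1.rep X.1.2 :=
  ⟨1, one_ne_zero, fun i => (one_mul _).symm, by rw [one_pow, one_mul]⟩

private theorem crd_unique {X X' : Dp F K} {a : Fin 3 → K} {b : K} (h : Crd X a b)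
    (h' : Crd X' a b) : X = X' := by
  obtain ⟨c, hc, h1, h2⟩ := h
  obtain ⟨c', hc', h1', h2'⟩ := h'
  have h3 : X.1.1 = X'.1.1 := by
    rw [← Projectivization.mk_rep X.1.1, ← Projectivization.mk_rep X'.1.1,
      Projectivization.mk_eq_mk_iff']
    refine ⟨c * c'⁻¹, ?_⟩
    funext i
    change c * c'⁻¹ * X'.1.1.rep i = X.1.1.rep i
    rw [h1, h1']
    field_simp
  obtain ⟨i, hi⟩ : ∃ i, X.1.1.rep i ≠ 0 := by
    by_contra h
    push Not at h
    exact X.1.1.rep_nonzero (funext h)
  have h4 : c = c' := by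
    have h5 := h1 i
    rw [h3, h1' i] at h5
    have h6 : a i ≠ 0 := by
      intro h0
      apply hi
      rw [h1, h0, mul_zero]
    exact (mul_right_cancel₀ h6 h5).symm
  refine Subtype.ext (Prod.ext h3 ?_)
  rw [h2, h2', h4]

private theorem isVal_iff {v : Place k K} {X : Dp F K} {Y : Dp F k} {a : Fin 3 → K} {b : K}
    {p : Fin 3 → k} {q : k} (hX : Crd X a b) (hY : Crd Y p q) :
    Dp.IsVal v X Y ↔ ∃ l : K, (∀ i, v.At (l * a i) (p i)) ∧ v.At (l ^ 3 * b) q := by
  obtain ⟨c, hc, h1, h2⟩ := hX
  obtain ⟨d, hd, h3, h4⟩ := hY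
  unfold Dp.IsVal
  simp only [h1, h2, h3, h4]
  constructor
  · rintro ⟨l, hl, hl'⟩
    refine ⟨algebraMap k K d⁻¹ * l * c, fun i => ?_, ?_⟩
    · have h5 := (Place.at_const (v := v) d⁻¹).mul (hl i)
      have h6 : algebraMap k K d⁻¹ * l * c * a i = algebraMap k K d⁻¹ * (l * (c * a i)) := by
        ring
      rw [h6]
      rwa [inv_mul_cancel_left₀ hd] at h5
    · have h5 := (Place.at_const (v := v) (d⁻¹ ^ 3)).mul hl'
      have h6 : (algebraMap k K d⁻¹ * l * c) ^ 3 * b =
          algebraMap k K (d⁻¹ ^ 3) * (l ^ 3 * (c ^ 3 * b)) := by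
        rw [map_pow]
        ring
      rw [h6]
      have h7 : d⁻¹ ^ 3 * (d ^ 3 * q) = q := by
        field_simp
      rwa [h7] at h5
  · rintro ⟨l, hl, hl'⟩
    refine ⟨algebraMap k K d * l * c⁻¹, fun i => ?_, ?_⟩
    · have h5 := (Place.at_const (v := v) d).mul (hl i)
      have h6 : algebraMap k K d * l * c⁻¹ * (c * a i) = algebraMap k K d * (l * a i) := by
        field_simp
      rwa [h6]
    · have h5 := (Place.at_const (v := v) (d ^ 3)).mul hl'
      have h6 : (algebraMap k K d * l * c⁻¹) ^ 3 * (c ^ 3 * b) =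
          algebraMap k K (d ^ 3) * (l ^ 3 * b) := by
        rw [map_pow]
        field_simp
      rwa [h6]

/-- the value of a point is unique -/
private theorem isVal_unique {v : Place k K} {X : Dp F K} {Y Y' : Dp F k} (h : Dp.IsVal v X Y)
    (h' : Dp.IsVal v X Y') : Y = Y' := by
  obtain ⟨l, hl, hl2⟩ := h
  obtain ⟨l', hl', hl2'⟩ := h'
  obtain ⟨c, hc, hcy⟩ := GT.scale_unique Y.1.1.rep_nonzero Y'.1.1.rep_nonzero hl hl'
  have h1 : Y.1.1 = Y'.1.1 := by
    rw [← Projectivization.mk_rep Y.1.1, ← Projectivization.mk_rep Y'.1.1,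
      Projectivization.mk_eq_mk_iff]
    refine ⟨(Units.mk0 c hc)⁻¹, ?_⟩
    rw [hcy, inv_smul_eq_iff]
    rfl
  obtain ⟨i, hi⟩ : ∃ i, Y.1.1.rep i ≠ 0 := by
    by_contra h
    push Not at h
    exact Y.1.1.rep_nonzero (funext h)
  have hne : l * X.1.1.rep i ≠ 0 := by
    intro h0
    have h2 := hl i
    rw [h0] at h2
    have h3 := Place.at_const (v := v) (0 : k)
    rw [map_zero] at h3
    exact hi (Place.At.unique h2 h3)
  have hl0 : l ≠ 0 := left_ne_zero_of_mul hne
  have hx0 : X.1.1.rep i ≠ 0 := right_ne_zero_of_mul hne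
  have h2 := (hl' i).div (hl i) hi
  rw [← h1, div_self hi] at h2
  have h3 : l' * X.1.1.rep i / (l * X.1.1.rep i) = l' / l := by
    field_simp
  rw [h3] at h2
  have h4 := ((h2.mul h2).mul h2).mul hl2
  have h5 : l' / l * (l' / l) * (l' / l) * (l ^ 3 * X.1.2) = l' ^ 3 * X.1.2 := by
    field_simp
  rw [h5] at h4
  refine Subtype.ext (Prod.ext h1 ?_)
  have h6 := Place.At.unique h4 hl2'
  simpa using h6

private theorem val_mv {v : Place k K} {ι : Type} {x : ι → K} {y : ι → k}
    (h : ∀ i, v.At (x i) (y i)) (f : MvPolynomial ι k) :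
    v.At (MvPolynomial.aeval x f) (MvPolynomial.aeval y f) := by
  induction f using MvPolynomial.induction_on with
  | C a =>
    rw [MvPolynomial.algHom_C, MvPolynomial.algHom_C]
    exact Place.at_const a
  | add f g hf hg =>
    rw [map_add, map_add]
    exact hf.add hg
  | mul_X f i hf =>
    rw [map_mul, map_mul, MvPolynomial.aeval_X, MvPolynomial.aeval_X]
    exact hf.mul (h i)

/-- every point has a value -/
private theorem exists_isVal [GT.HasRes k K] (hF : F.IsHomogeneous 6) (v : Place k K)
    (X : Dp F K) : ∃ Y : Dp F k, Dp.IsVal v X Y := by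
  obtain ⟨l, p, hl, hp, h⟩ := GT.exists_scale v X.1.1.rep X.1.1.rep_nonzero
  have h1 := val_mv h F
  have h2 : MvPolynomial.aeval (fun i => l * X.1.1.rep i) F = (l ^ 3 * X.1.2) ^ 2 := by
    rw [GT.aeval_smul_homog hF, ← X.2]
    ring
  rw [h2] at h1
  have h3 : l ^ 3 * X.1.2 ∈ v.ring := by
    have h4 := h1.mem
    rw [← v.ring.valuation_le_one_iff, map_pow] at h4
    rw [← v.ring.valuation_le_one_iff]
    exact (pow_le_one_iff (two_ne_zero)).1 h4
  obtain ⟨q, hq⟩ := GT.HasRes.res v _ h3
  have h5 : q ^ 2 = MvPolynomial.aeval p F := by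
    have h6 := hq.mul hq
    rw [← pow_two] at h6
    rw [pow_two]
    exact Place.At.unique h6 h1
  obtain ⟨Y, hY⟩ := exists_mk hF hp h5
  exact ⟨Y, (isVal_iff (crd_rep X) hY).2 ⟨l, h, hq⟩⟩

/-- values and extensions of fields: `V` lies above `v` -/
private theorem isVal_above {K' : Type} [Field K'] [Algebra k K'] {φ : K →ₐ[k] K'}
    {V : Place k K'} {v : Place k K} (hV : V.ring.comap (φ : K →+* K') = v.ring)
    {X : Dp F K} {X' : Dp F K'} {Y : Dp F k} {a : Fin 3 → K} {b : K} (hX : Crd X a b)
    (hX' : Crd X' (fun i => φ (a i)) (φ b)) (h : Dp.IsVal v X Y) : Dp.IsVal V X' Y := by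
  have hmem : ∀ f : K, φ f ∈ V.ring ↔ f ∈ v.ring := by
    intro f
    rw [← hV, ValuationSubring.mem_comap]
    rfl
  have hAt : ∀ (f : K) (c : k), v.At f c → V.At (φ f) c := by
    intro f c
    unfold Place.At
    rw [Place.vanishes_iff_or, Place.vanishes_iff_or, ← φ.commutes c, ← map_sub, ← map_inv₀,
      hmem, map_eq_zero]
    exact fun h => h
  obtain ⟨l, h1, h2⟩ := (isVal_iff hX (crd_rep Y)).1 h
  refine (isVal_iff hX' (crd_rep Y)).2 ⟨φ l, fun i => ?_, ?_⟩
  · rw [← map_mul]
    exact hAt _ _ (h1 i)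
  · rw [← map_pow, ← map_mul]
    exact hAt _ _ h2

end Points

theorem plane_base (hF : (Var.plane F).Smooth) : Base (.plane F) := by
  intro K _ _ _ y
  have hne : (fun i => algebraMap k K (y.1.1.rep i)) ≠ 0 := by
    intro h
    apply y.1.1.rep_nonzero
    funext i
    exact (map_eq_zero (algebraMap k K)).1 (congrFun h i)
  have h1 : (algebraMap k K y.1.2) ^ 2 =
      MvPolynomial.aeval (fun i => algebraMap k K (y.1.1.rep i)) F := by
    rw [← map_pow, y.2]
    exact (MvPolynomial.aeval_algebraMap_apply K y.1.1.rep F).symm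
  obtain ⟨x, hx⟩ := exists_mk hF.1 hne h1
  refine ⟨x, fun v => ?_⟩
  change Dp.IsVal v x y
  refine (isVal_iff hx (crd_rep y)).2 ⟨1, fun i => ?_, ?_⟩
  · rw [one_mul]
    exact Place.at_const _
  · rw [one_pow, one_mul]
    exact Place.at_const _

section Two

open Pool.Agent.TInc

variable [IsAlgClosed k] [CharZero k]

/-- If the sum of the values of `G` over the divisors of all functions is zero, and `G` is constant
on the zeros of `τ - c₀` and on the zeros of `τ - c₁`, then the two constants are the same. -/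
private theorem two_values {K V : Type} [Field K] [Algebra k K] [AddCommGroup V] [Module ℚ V]
    (hK : IsCurve k K) {τ : K} (hτt : Transcendental k τ) (G : Place k K → V)
    (hG : ∀ f : K, f ≠ 0 → ((dv hK f).sum fun v m => (m : ℚ) • G v) = 0) {c₀ c₁ : k} {C₀ C₁ : V}
    (h₀ : ∀ v : Place k K, v.Vanishes (τ - algebraMap k K c₀) → G v = C₀)
    (h₁ : ∀ v : Place k K, v.Vanishes (τ - algebraMap k K c₁) → G v = C₁) : C₀ = C₁ := by
  -- the two functions
  let f : k → K := fun c => τ - algebraMap k K c
  have hft : ∀ c, Transcendental k (f c) := by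
    intro c h
    apply hτt
    have h1 : τ = f c + algebraMap k K c := by
      change τ = τ - algebraMap k K c + algebraMap k K c
      ring
    rw [h1]
    exact h.add (isAlgebraic_algebraMap c)
  have hf0 : ∀ c, f c ≠ 0 := by
    intro c h
    apply hft c
    rw [h]
    exact isAlgebraic_zero
  have hadj : ∀ c, IntermediateField.adjoin k {f c} = IntermediateField.adjoin k {τ} := by
    intro c
    apply le_antisymm
    · rw [IntermediateField.adjoin_simple_le_iff]
      exact sub_mem (IntermediateField.mem_adjoin_simple_self k τ)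
        (IntermediateField.algebraMap_mem _ c)
    · rw [IntermediateField.adjoin_simple_le_iff]
      have h1 : τ = f c + algebraMap k K c := by
        change τ = τ - algebraMap k K c + algebraMap k K c
        ring
      have h2 : f c + algebraMap k K c ∈ IntermediateField.adjoin k {f c} :=
        add_mem (IntermediateField.mem_adjoin_simple_self k (f c))
          (IntermediateField.algebraMap_mem _ c)
      rw [← h1] at h2
      exact h2
  set d : ℕ := Module.finrank (IntermediateField.adjoin k {τ}) K with hd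
  have hdpos : 0 < d := by
    have := fin_adjoin hK hτt
    exact Module.finrank_pos
  let S : k → Finset (Place k K) := fun c =>
    (finite_ord hK (f c)).toFinset.filter fun v => v.Vanishes (f c)
  have hS : ∀ c v, v ∈ S c ↔ v.Vanishes (f c) := by
    intro c v
    rw [Finset.mem_filter, Set.Finite.mem_toFinset]
    constructor
    · exact fun h => h.2
    · intro h
      have h1 := (vanishes_iff_ord hK (hf0 c)).1 h
      exact ⟨ne_of_gt h1, h⟩
  have hdeg : ∀ c, ∑ v ∈ S c, ord v (f c) = d := by
    intro c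
    rw [deg_zeros' hK (hft c) (S c) (hS c), hadj c]
  -- the orders at the poles agree
  have hpole : ∀ (a b : k) (v : Place k K), ord v (f a) < 0 → ord v (f b) = ord v (f a) := by
    intro a b v hv
    have h1 : f b = f a + algebraMap k K (a - b) := by
      change τ - algebraMap k K b = τ - algebraMap k K a + algebraMap k K (a - b)
      rw [map_sub]
      ring
    rw [h1]
    refine (ord_add_eq hK (hf0 a) fun _ => ?_).2
    rw [ord_const hK]
    exact hv
  let D : k → (Place k K →₀ ℤ) := fun c => dv hK (f c)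
  let T : Finset (Place k K) := (D c₀).support ∪ (D c₁).support
  have hsum : ∀ c, (D c).support ⊆ T → ∑ v ∈ T, ((ord v (f c) : ℤ) : ℚ) • G v = 0 := by
    intro c hc
    have h1 := hG (f c) (hf0 c)
    change (D c).sum (fun v m => (m : ℚ) • G v) = 0 at h1
    rw [Finsupp.sum_of_support_subset _ hc] at h1
    · exact h1
    · intro v _
      simp
  have hmax : ∀ c, (D c).support ⊆ T → ∑ v ∈ T, max (ord v (f c)) 0 = d := by
    intro c hc
    rw [← hdeg c]
    symm
    have hsub : S c ⊆ T := by
      intro v hv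
      apply hc
      rw [Finsupp.mem_support_iff]
      have h1 := (vanishes_iff_ord hK (hf0 c)).1 ((hS c v).1 hv)
      exact ne_of_gt h1
    rw [← Finset.sum_subset hsub]
    · refine Finset.sum_congr rfl fun v hv => ?_
      have h1 := (vanishes_iff_ord hK (hf0 c)).1 ((hS c v).1 hv)
      exact (max_eq_left h1.le).symm
    · intro v _ hv
      rw [hS, vanishes_iff_ord hK (hf0 c)] at hv
      exact max_eq_right (not_lt.1 hv)
  have hs0 := hsum c₀ Finset.subset_union_left
  have hs1 := hsum c₁ Finset.subset_union_right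
  have hm0 := hmax c₀ Finset.subset_union_left
  have hm1 := hmax c₁ Finset.subset_union_right
  have hterm : ∀ v, ((ord v (f c₀) : ℤ) : ℚ) • G v - ((ord v (f c₁) : ℤ) : ℚ) • G v =
      ((max (ord v (f c₀)) 0 : ℤ) : ℚ) • C₀ - ((max (ord v (f c₁)) 0 : ℤ) : ℚ) • C₁ := by
    intro v
    have e : ∀ (c : k) (C : V), (∀ v : Place k K, v.Vanishes (f c) → G v = C) →
        ((max (ord v (f c)) 0 : ℤ) : ℚ) • C = ((max (ord v (f c)) 0 : ℤ) : ℚ) • G v := by
      intro c C hC
      by_cases hv : v.Vanishes (f c)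
      · rw [hC v hv]
      · rw [vanishes_iff_ord hK (hf0 c)] at hv
        rw [max_eq_right (not_lt.1 hv)]
        simp
    rw [e c₀ C₀ h₀, e c₁ C₁ h₁, ← sub_smul, ← sub_smul]
    congr 1
    have h1 := hpole c₀ c₁ v
    have h2 := hpole c₁ c₀ v
    have h3 : ord v (f c₀) - ord v (f c₁) = max (ord v (f c₀)) 0 - max (ord v (f c₁)) 0 := by
      rcases lt_or_ge (ord v (f c₀)) 0 with h | h
      · rw [h1 h]
        simp
      · rcases lt_or_ge (ord v (f c₁)) 0 with h' | h'
        · rw [h2 h'] at h
          omega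
        · rw [max_eq_left h, max_eq_left h']
    exact_mod_cast h3
  have hfin : (d : ℚ) • C₀ - (d : ℚ) • C₁ = 0 := by
    have h1 : ∑ v ∈ T, (((ord v (f c₀) : ℤ) : ℚ) • G v - ((ord v (f c₁) : ℤ) : ℚ) • G v) = 0 := by
      rw [Finset.sum_sub_distrib, hs0, hs1, sub_zero]
    rw [Finset.sum_congr rfl fun v _ => hterm v, Finset.sum_sub_distrib, ← Finset.sum_smul,
      ← Finset.sum_smul, ← Int.cast_sum, ← Int.cast_sum, hm0, hm1] at h1
    exact_mod_cast h1
  rw [← smul_sub] at hfin
  rcases smul_eq_zero.1 hfin with h | h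
  · exfalso
    have : d = 0 := by exact_mod_cast h
    omega
  · exact sub_eq_zero.1 h

end Two

section Fld

open Pool.Agent.TInc

variable (L : IntermediateField (RatFunc k) (Om k))

private theorem alg_rat (r : RatFunc k) : algebraMap (RatFunc k) L r =
    Polynomial.aeval (algebraMap (RatFunc k) L RatFunc.X) r.num /
      Polynomial.aeval (algebraMap (RatFunc k) L RatFunc.X) r.denom := by
  have h0 : ∀ p : Polynomial k, algebraMap (RatFunc k) L (algebraMap (Polynomial k) (RatFunc k) p) =
      Polynomial.aeval (algebraMap (RatFunc k) L RatFunc.X) p := by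
    intro p
    rw [Polynomial.aeval_algebraMap_apply]
    congr 1
    have h1 : (Polynomial.aeval (RatFunc.X : RatFunc k)) = IsScalarTower.toAlgHom k (Polynomial k)
        (RatFunc k) := by
      apply Polynomial.algHom_ext
      rw [Polynomial.aeval_X]
      exact RatFunc.algebraMap_X.symm
    rw [h1]
    rfl
  rw [← h0, ← h0, ← map_div₀, RatFunc.num_div_denom]

private theorem transc_X : Transcendental k (algebraMap (RatFunc k) L RatFunc.X) := by
  rw [transcendental_algebraMap_iff (algebraMap (RatFunc k) L).injective]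
  exact RatFunc.transcendental_X

private theorem curveF [FiniteDimensional (RatFunc k) L] : IsCurve k L := by
  refine ⟨algebraMap (RatFunc k) L RatFunc.X, transc_X L, ?_⟩
  set t := algebraMap (RatFunc k) L RatFunc.X with ht
  have hmem : ∀ r : RatFunc k, algebraMap (RatFunc k) L r ∈ IntermediateField.adjoin k {t} := by
    intro r
    rw [alg_rat]
    refine div_mem ?_ ?_
    · exact (IntermediateField.algebra_adjoin_le_adjoin k {t})
        (Polynomial.aeval_mem_adjoin_singleton k t)
    · exact (IntermediateField.algebra_adjoin_le_adjoin k {t})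
        (Polynomial.aeval_mem_adjoin_singleton k t)
  let f : RatFunc k →+* IntermediateField.adjoin k {t} :=
    (algebraMap (RatFunc k) L).codRestrict (IntermediateField.adjoin k {t}).toSubfield.toSubring
      hmem
  let _ : Algebra (RatFunc k) (IntermediateField.adjoin k {t}) := f.toAlgebra
  have : IsScalarTower (RatFunc k) (IntermediateField.adjoin k {t}) L :=
    IsScalarTower.of_algebraMap_eq fun r => rfl
  exact Module.Finite.of_restrictScalars_finite (RatFunc k) (IntermediateField.adjoin k {t}) L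

/-- an embedding which fixes `t` is the restriction of an automorphism -/
private theorem exists_auto (σ : L →ₐ[k] Om k)
    (hσ : σ (algebraMap (RatFunc k) L RatFunc.X) = tt k) :
    ∃ g : Om k ≃ₐ[RatFunc k] Om k, ∀ x : L, g x = σ x := by
  have hc : ∀ r : RatFunc k, σ (algebraMap (RatFunc k) L r) = algebraMap (RatFunc k) (Om k) r := by
    intro r
    have h1 : ∀ p : Polynomial k, σ (Polynomial.aeval (algebraMap (RatFunc k) L RatFunc.X) p) =
        ((Polynomial.aeval (algebraMap (RatFunc k) L RatFunc.X) p : L) : Om k) := by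
      intro p
      have h2 := Polynomial.aeval_algHom_apply σ (algebraMap (RatFunc k) L RatFunc.X) p
      have h3 := Polynomial.aeval_algHom_apply (L.val.restrictScalars k)
        (algebraMap (RatFunc k) L RatFunc.X) p
      have h4 : (L.val.restrictScalars k) (algebraMap (RatFunc k) L RatFunc.X) = tt k := rfl
      rw [hσ] at h2
      rw [h4] at h3
      rw [← h2, h3]
      rfl
    have h5 : algebraMap (RatFunc k) (Om k) r = ((algebraMap (RatFunc k) L r : L) : Om k) := rfl
    rw [h5, alg_rat, map_div₀, h1, h1]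
    rfl
  let σ' : L →ₐ[RatFunc k] Om k := { σ with commutes' := hc }
  refine ⟨AlgEquiv.ofBijective (σ'.liftNormal (Om k))
    (Algebra.IsAlgebraic.algHom_bijective _), fun x => ?_⟩
  exact AlgHom.liftNormal_commutes σ' (Om k) x

end Fld

section Main

open Pool.Agent.TInc

variable [IsAlgClosed k] [CharZero k]

private theorem dp_nonempty (hF : F.IsHomogeneous 6) : Nonempty (Dp F k) := by
  obtain ⟨b, hb⟩ := IsAlgClosed.exists_pow_nat_eq
    (MvPolynomial.aeval (fun _ => (1 : k)) F) (n := 2) two_pos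
  obtain ⟨X, -⟩ := exists_mk hF (a := fun _ => (1 : k)) (b := b)
    (fun h => one_ne_zero (congrFun h 0)) hb
  exact ⟨X⟩

/-- the values of a Galois-stable family -/
private theorem family (hF : F.IsHomogeneous 6) (toDp : Kim.Pt k → Dp F k)
    (hto : ∀ w, Kim.OnX F w → Crd (toDp w) w.x w.y) {l n : ℕ}
    {P : Fin l → Fin n → Kim.Pt (Om k)} {a b : k} {v w : Place k (Om k)}
    {p q : Fin l → Fin n → Kim.Pt k} (hP : ∀ i j, Kim.OnX F (P i j))
    (hst : ∀ g : Om k ≃ₐ[RatFunc k] Om k, ∃ e : Equiv.Perm (Fin l), ∀ i j,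
      P (e i) j = (P i j).map g) (hv : v.At (tt k) a) (hw : w.At (tt k) b)
    (hp : ∀ i j, Kim.OnX F (p i j) ∧ Kim.IsVal v (P i j) (p i j))
    (hq : ∀ i j, Kim.OnX F (q i j) ∧ Kim.IsVal w (P i j) (q i j)) :
    (∑ i, (Finsupp.single (fun j => toDp (p i j)) (1 : ℚ) -
      Finsupp.single (fun j => toDp (q i j)) 1)) ∈ Rat1 (.plane F) n := by
  -- the field
  let co : Fin l × Fin n × (Fin 3 ⊕ Unit) → Om k := fun s =>
    Sum.elim (P s.1 s.2.1).x (fun _ => (P s.1 s.2.1).y) s.2.2
  let L : IntermediateField (RatFunc k) (Om k) :=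
    IntermediateField.adjoin (RatFunc k) (Set.range co)
  have hfd : FiniteDimensional (RatFunc k) L := by
    have : Finite (Set.range co) := (Set.finite_range _).to_subtype
    exact IntermediateField.finiteDimensional_adjoin fun z _ => Algebra.IsIntegral.isIntegral z
  have hco : ∀ s, co s ∈ L := fun s => IntermediateField.subset_adjoin _ _ ⟨s, rfl⟩
  have hL : IsCurve k L := curveF L
  have : GT.HasRes k L := GT.hasRes_of_isCurve hL
  let A : Fin l → Fin n → Fin 3 → L := fun i j s => ⟨(P i j).x s, hco (i, j, Sum.inl s)⟩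
  let B : Fin l → Fin n → L := fun i j => ⟨(P i j).y, hco (i, j, Sum.inr ())⟩
  have hA : ∀ i j, A i j ≠ 0 := by
    intro i j h
    apply (hP i j).1
    funext s
    exact congrArg Subtype.val (congrFun h s)
  have hB : ∀ i j, B i j ^ 2 = MvPolynomial.aeval (A i j) F := by
    intro i j
    apply Subtype.ext
    have h1 := DFunLike.congr_fun (MvPolynomial.comp_aeval (A i j) (L.val.restrictScalars k)) F
    have h2 : (L.val.restrictScalars k) (MvPolynomial.aeval (A i j) F) =
        MvPolynomial.aeval (P i j).x F := h1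
    change (P i j).y ^ 2 = (L.val.restrictScalars k) (MvPolynomial.aeval (A i j) F)
    rw [h2]
    exact (hP i j).2
  choose x hx using fun i j => exists_mk hF (hA i j) (hB i j)
  choose y hy using fun (c : Place k L) i j => exists_isVal hF c (x i j)
  -- the classes of the values
  let V : Type := ((Fin n → (Var.plane F).Pts k) →₀ ℚ) ⧸ Rat1 (.plane F) n
  let G : Place k L → V := fun c => ∑ i, (Rat1 (.plane F) n).mkQ
    (Finsupp.single (fun j => y c i j) (1 : ℚ))
  have hG : ∀ f : L, f ≠ 0 → ((dv hL f).sum fun c m => (m : ℚ) • G c) = 0 := by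
    intro f hf
    have h1 : ((dv hL f).sum fun c m => (m : ℚ) • G c) = ∑ i, (Rat1 (.plane F) n).mkQ
        ((dv hL f).sum fun c m => Finsupp.single (fun j => y c i j) (m : ℚ)) := by
      simp only [Finsupp.sum, map_sum]
      rw [Finset.sum_comm]
      refine Finset.sum_congr rfl fun c _ => ?_
      rw [Finset.smul_sum]
      refine Finset.sum_congr rfl fun i _ => ?_
      rw [← map_smul, Finsupp.smul_single, smul_eq_mul, mul_one]
    rw [h1]
    refine Finset.sum_eq_zero fun i _ => ?_
    rw [Submodule.mkQ_apply, Submodule.Quotient.mk_eq_zero]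
    exact Submodule.subset_span ⟨L, inferInstance, inferInstance, hL, fun j => x i j,
      fun c j => y c i j, f, dv hL f, hf, fun c => ord_hasOrd hL c hf,
      fun c j => hy c i j, rfl⟩
  -- the values above a point
  have key : ∀ (u : Place k (Om k)) (a' : k) (r : Fin l → Fin n → Kim.Pt k),
      u.At (tt k) a' → (∀ i j, Kim.OnX F (r i j) ∧ Kim.IsVal u (P i j) (r i j)) →
      ∀ c : Place k L, c.Vanishes (algebraMap (RatFunc k) L RatFunc.X - algebraMap k L a') →
      G c = ∑ i, (Rat1 (.plane F) n).mkQ (Finsupp.single (fun j => toDp (r i j)) (1 : ℚ)) := by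
    intro u a' r hu hr c hc
    obtain ⟨σ, hσ, hσc⟩ := exists_emb_over hL (transc_X L) (Pool.Agent.VFP.tt_transc (k := k)) hu
      (c := c) hc
    obtain ⟨g, hg⟩ := exists_auto L σ hσ
    obtain ⟨e, he⟩ := hst g
    have h1 : ∀ i j, y c i j = toDp (r (e i) j) := by
      intro i j
      have hmap : (fun s => σ (A i j s)) = (P (e i) j).x := by
        rw [he i j]
        funext s
        exact (hg (A i j s)).symm
      have hmap' : σ (B i j) = (P (e i) j).y := by
        rw [he i j]
        exact (hg (B i j)).symm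
      obtain ⟨X', hX'⟩ := exists_mk hF (hP (e i) j).1 (hP (e i) j).2
      have h2 : Dp.IsVal u X' (y c i j) := by
        refine isVal_above hσc (hx i j) ?_ (hy c i j)
        rw [hmap, hmap']
        exact hX'
      have h3 : Dp.IsVal u X' (toDp (r (e i) j)) := by
        rw [isVal_iff hX' (hto _ (hr (e i) j).1)]
        obtain ⟨c', h4, h5⟩ := (hr (e i) j).2
        exact ⟨c', h4, h5⟩
      exact isVal_unique h2 h3
    have h2 : ∀ i, (fun j => y c i j) = fun j => toDp (r (e i) j) := fun i => funext (h1 i)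
    change ∑ i, _ = _
    simp only [h2]
    exact Equiv.sum_comp e fun i => (Rat1 (.plane F) n).mkQ
      (Finsupp.single (fun j => toDp (r i j)) (1 : ℚ))
  have hfin := two_values hL (transc_X L) G hG (key v a p hv hp) (key w b q hw hq)
  rw [← Submodule.Quotient.mk_eq_zero, ← Submodule.mkQ_apply, map_sum]
  have hsub : ∀ i : Fin l, (Rat1 (.plane F) n).mkQ
      (Finsupp.single (fun j => toDp (p i j)) (1 : ℚ) -
        Finsupp.single (fun j => toDp (q i j)) 1) =
      (Rat1 (.plane F) n).mkQ (Finsupp.single (fun j => toDp (p i j)) (1 : ℚ)) -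
        (Rat1 (.plane F) n).mkQ (Finsupp.single (fun j => toDp (q i j)) 1) := fun i =>
    map_sub (Rat1 (.plane F) n).mkQ _ _
  refine (Finset.sum_congr rfl fun i _ => hsub i).trans ?_
  rw [Finset.sum_sub_distrib, hfin, sub_self]

/-- the point with given weighted homogeneous coordinates -/
theorem exists_toDp (hF : (Var.plane F).Smooth) : ∃ toDp : Kim.Pt k → Dp F k,
    (∀ x : Dp F k, toDp ⟨x.1.1.rep, x.1.2⟩ = x) ∧ ∀ (n : ℕ) (z : (Fin n → Kim.Pt k) →₀ ℚ),
      z ∈ Kim.ratEq F n → Finsupp.mapDomain (fun x j => toDp (x j)) z ∈ Rat1 (.plane F) n := by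
  have : Nonempty (Dp F k) := dp_nonempty hF.1
  have h1 : ∀ w : Kim.Pt k, ∃ X : Dp F k, Kim.OnX F w → Crd X w.x w.y := by
    intro w
    by_cases h : Kim.OnX F w
    · obtain ⟨X, hX⟩ := exists_mk hF.1 h.1 h.2
      exact ⟨X, fun _ => hX⟩
    · exact ⟨Classical.arbitrary _, fun h' => absurd h' h⟩
  choose toDp hto using h1
  refine ⟨toDp, fun x => ?_, fun n z hz => ?_⟩
  · have h2 : Kim.OnX F ⟨x.1.1.rep, x.1.2⟩ := ⟨x.1.1.rep_nonzero, x.2⟩
    exact crd_unique (hto _ h2) (crd_rep x)
  · have h2 : Kim.ratEq F n ≤ (Rat1 (.plane F) n).comap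
        (Finsupp.lmapDomain ℚ ℚ fun (x : Fin n → Kim.Pt k) j => toDp (x j)) := by
      refine Submodule.span_le.2 ?_
      rintro _ ⟨l, P, a, b, v, w, p, q, hP, hst, hv, hw, hp, hq, rfl⟩
      change Finsupp.lmapDomain ℚ ℚ _ _ ∈ Rat1 (.plane F) n
      have h3 := family hF.1 toDp hto hP hst hv hw hp hq
      rw [map_sum]
      simp only [map_sub, Finsupp.lmapDomain_apply, Finsupp.mapDomain_single]
      exact h3
    exact h2 hz

private theorem ext_map {S T : Type} {n : ℕ} (f : S → T) (g : T → S) (hg : ∀ x, f (g x) = x)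
    (z : Fin n → (T →₀ ℚ)) : Finsupp.mapDomain (fun x j => f (x j))
      (CUB.ext fun j => Finsupp.mapDomain g (z j)) = CUB.ext z := by
  have hinj : Function.Injective g := fun x y h => by rw [← hg x, ← hg y, h]
  unfold CUB.ext
  rw [Finsupp.mapDomain_finsetSum]
  have h1 : ∀ j, (Finsupp.mapDomain g (z j)).support = (z j).support.image g := fun j =>
    Finsupp.mapDomain_support_of_injective hinj _
  refine (Finset.sum_bij' (fun x _ j => g (x j)) (fun x _ j => f (x j)) ?_ ?_ ?_ ?_ ?_).symm
  · intro x hx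
    rw [Fintype.mem_piFinset] at hx ⊢
    intro j
    rw [h1]
    exact Finset.mem_image_of_mem _ (hx j)
  · intro x hx
    rw [Fintype.mem_piFinset] at hx ⊢
    intro j
    have h2 := hx j
    rw [h1, Finset.mem_image] at h2
    obtain ⟨y, hy, h3⟩ := h2
    rw [← h3, hg]
    exact hy
  · intro x _
    exact funext fun j => hg (x j)
  · intro x hx
    funext j
    rw [Fintype.mem_piFinset] at hx
    have h2 := hx j
    rw [h1, Finset.mem_image] at h2
    obtain ⟨y, hy, h3⟩ := h2
    change g (f (x j)) = x j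
    rw [← h3, hg]
  · intro x _
    rw [Finsupp.mapDomain_single]
    have h3 : (fun j => f (g (x j))) = x := funext fun j => hg (x j)
    rw [h3]
    congr 1
    refine Finset.prod_congr rfl fun j _ => ?_
    rw [Finsupp.mapDomain_apply hinj]

theorem plane_fin (hF : (Var.plane F).Smooth) : Fin1 (.plane F) := by
  obtain ⟨toDp, h1, h2⟩ := exists_toDp hF
  refine fin_of_deg (plane_base hF) (n := 69) fun z hz => ?_
  let g : Dp F k → Kim.Pt k := fun x => ⟨x.1.1.rep, x.1.2⟩
  let z' : Fin 69 → (Kim.Pt k →₀ ℚ) := fun j => Finsupp.mapDomain g (z j)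
  have hsupp : ∀ i, ∀ p ∈ (z' i).support, Kim.OnX F p := by
    intro i p hp
    have h3 := Finsupp.mapDomain_support hp
    obtain ⟨x, -, rfl⟩ := Finset.mem_image.1 h3
    exact ⟨x.1.1.rep_nonzero, x.2⟩
  have hdeg : ∀ i, ((z' i).sum fun _ c => c) = 0 := by
    intro i
    rw [Finsupp.sum_mapDomain_index (fun _ => rfl) (fun _ _ _ => rfl)]
    exact hz i
  have hns : Kim.NonSing F := by
    intro x hx
    refine hF.2 x fun i => ?_
    rw [← MvPolynomial.coe_aeval_eq_eval]
    exact hx i
  have h3 := Kim.main₂ hF.1 hns (le_refl 69) hsupp hdeg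
  have h4 := h2 69 _ h3
  have h5 : Finsupp.mapDomain (fun (x : Fin 69 → Kim.Pt k) j => toDp (x j))
      (∑ τ : Equiv.Perm (Fin 69), ((Equiv.Perm.sign τ : ℤ) : ℚ) • Kim.extProd (z' ∘ τ)) =
      CUB.alt z := by
    change Finsupp.lmapDomain ℚ ℚ _ _ = _
    rw [map_sum]
    refine Finset.sum_congr rfl fun τ _ => ?_
    rw [map_smul, ← Int.cast_smul_eq_zsmul ℚ]
    congr 1
    exact ext_map toDp g h1 fun j => z (τ j)
  rw [← h5]
  exact h4

end Main

end Pool.Agent.KMix
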