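import Pool.Agent.KMix.Deg
import Pool.Agent.QRT.Main

/-!
# Quartic surfaces
-/

set_option autoImplicit false

noncomputable section

namespace Pool.Agent.KMix

open Pool.Agent.ZCyc Pool.Agent.Dess
open scoped Classical

variable {k : Type} [Field k] {F : MvPolynomial (Fin 4) k}

theorem quartic_base (hF : (Var.quartic F).Smooth) : Base (.quartic F) := by
  intro K _ _ _ y
  have hX := QRT.homX hF.1
  exact ⟨GT.Pt.map (Algebra.ofId k K) hX y, fun v => GT.isVal_const⟩

theorem quartic_fin [IsAlgClosed k] [CharZero k] (hF : (Var.quartic F).Smooth) :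
    Fin1 (.quartic F) := by
  obtain ⟨N, hN⟩ := QRT.main (F := F) ⟨hF.1, hF.2⟩
  exact fin_of_deg (quartic_base hF) (n := N) fun z hz => hN N le_rfl z hz

end Pool.Agent.KMix
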