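import Pool.Agent.ZIso.SFT

/-!
# Alternating sums of words

`U` is a set of letters of different kinds `κ : U → Fin s`, `c` is a function on the words of length
`r`. If the alternating sums of `c` over the permutations of `n i + 1` positions with letters of
the kind `i` are zero then so are the alternating sums over all permutations of `N` blocks of `m`
letters, if `N` is greater than `(∑ i, n i) ^ m`.
-/

set_option autoImplicit false

namespace Pool.Agent.KMix

open Finset Pool.Agent.ZIso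
open scoped Classical

variable {r : ℕ}

private theorem abs_fix {J : Finset (Fin r)} {π : Equiv.Perm (Fin r)} :
    π ∈ fixing J ↔ ∀ i ∉ J, π i = i := by
  simp [fixing]

variable {U T : Type} [AddCommGroup T] [Module ℚ T]

/-- The alternating sum over the positions `J`, from the ones for positions in a set with fewer
elements. -/
private theorem abs_alt {c : (Fin r → U) → T} {J J' : Finset (Fin r)} (hJ : J' ⊆ J)
    (w : Fin r → U)
    (h : ∀ π : Equiv.Perm (Fin r), ∑ σ ∈ fixing (J'.map π.symm.toEmbedding),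
      ((Equiv.Perm.sign σ : ℤ) : ℚ) • c ((w ∘ π) ∘ σ) = 0) :
    ∑ π ∈ fixing J, ((Equiv.Perm.sign π : ℤ) : ℚ) • c (w ∘ π) = 0 := by
  set S := ∑ π ∈ fixing J, ((Equiv.Perm.sign π : ℤ) : ℚ) • c (w ∘ π) with hS
  have h1 : ∀ ρ ∈ fixing J', ∑ π ∈ fixing J, ((Equiv.Perm.sign π : ℤ) : ℚ) •
      (((Equiv.Perm.sign ρ : ℤ) : ℚ) • c (w ∘ ⇑(ρ * π))) = S := by
    intro ρ hρ
    rw [abs_fix] at hρ
    have hρ' : ∀ i ∉ J, ρ i = i := fun i hi => hρ i fun h => hi (hJ h)
    rw [hS]
    refine Finset.sum_bij (fun π _ => ρ * π) ?_ ?_ ?_ ?_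
    · intro π hπ
      rw [abs_fix] at hπ ⊢
      intro i hi
      rw [Equiv.Perm.mul_apply, hπ i hi, hρ' i hi]
    · intro π _ π' _ h
      exact mul_left_cancel h
    · intro π hπ
      rw [abs_fix] at hπ
      refine ⟨ρ⁻¹ * π, ?_, mul_inv_cancel_left ρ π⟩
      rw [abs_fix]
      intro i hi
      rw [Equiv.Perm.mul_apply, hπ i hi, Equiv.Perm.inv_eq_iff_eq, hρ' i hi]
    · intro π _
      rw [smul_smul, Equiv.Perm.sign_mul]
      push_cast
      rw [mul_comm]
  have h2 : ∀ π : Equiv.Perm (Fin r), ∑ ρ ∈ fixing J', ((Equiv.Perm.sign ρ : ℤ) : ℚ) •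
      c (w ∘ ⇑(ρ * π)) = 0 := by
    intro π
    rw [← h π]
    refine Finset.sum_bij (fun ρ _ => π⁻¹ * ρ * π) ?_ ?_ ?_ ?_
    · intro ρ hρ
      rw [abs_fix] at hρ ⊢
      intro i hi
      have h3 : π i ∉ J' := by
        intro h4
        apply hi
        rw [Finset.mem_map]
        exact ⟨π i, h4, by simp⟩
      rw [Equiv.Perm.mul_apply, Equiv.Perm.mul_apply, hρ _ h3]
      simp
    · intro ρ _ ρ' _ h4
      exact mul_left_cancel (mul_right_cancel h4)
    · intro σ hσ
      rw [abs_fix] at hσ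
      refine ⟨π * σ * π⁻¹, ?_, by group⟩
      rw [abs_fix]
      intro i hi
      have h3 : π⁻¹ i ∉ J'.map π.symm.toEmbedding := by
        intro h4
        rw [Finset.mem_map] at h4
        obtain ⟨a, ha, hai⟩ := h4
        have h5 : a = i := π.symm.injective hai
        exact hi (h5 ▸ ha)
      rw [Equiv.Perm.mul_apply, Equiv.Perm.mul_apply, hσ _ h3]
      simp
    · intro ρ _
      congr 2
      · rw [Equiv.Perm.sign_mul, Equiv.Perm.sign_mul, Equiv.Perm.sign_inv]
        have h5 : (Equiv.Perm.sign π : ℤˣ) * Equiv.Perm.sign ρ * Equiv.Perm.sign π =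
            Equiv.Perm.sign ρ := by
          rw [mul_comm (Equiv.Perm.sign π), mul_assoc, Int.units_mul_self, mul_one]
        rw [h5]
      · funext i
        simp
  have h3 : ((fixing J').card : ℚ) • S = 0 := by
    have h4 : ((fixing J').card : ℚ) • S = ∑ π ∈ fixing J, ((Equiv.Perm.sign π : ℤ) : ℚ) •
        ∑ ρ ∈ fixing J', ((Equiv.Perm.sign ρ : ℤ) : ℚ) • c (w ∘ ⇑(ρ * π)) := by
      simp_rw [Finset.smul_sum]
      rw [Finset.sum_comm, Finset.sum_congr rfl h1, Finset.sum_const, Nat.cast_smul_eq_nsmul]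
    rw [h4]
    exact Finset.sum_eq_zero fun π _ => by rw [h2 π, smul_zero]
  have h4 : ((fixing J').card : ℚ) ≠ 0 := by
    rw [Nat.cast_ne_zero, Finset.card_ne_zero]
    exact ⟨1, abs_fix.2 fun _ _ => rfl⟩
  exact (smul_eq_zero.1 h3).resolve_left h4

/-- The group algebra. -/
theorem kill_words {s : ℕ} (κ : U → Fin s) (n : Fin s → ℕ) (c : (Fin r → U) → T)
    (H : ∀ (i : Fin s) (J : Finset (Fin r)), J.card = n i + 1 → ∀ w : Fin r → U,
      (∀ j ∈ J, κ (w j) = i) →
      ∑ σ ∈ fixing J, ((Equiv.Perm.sign σ : ℤ) : ℚ) • c (w ∘ σ) = 0)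
    {β : Equiv.Perm (Fin r) → ℚ} (hβ : KillsTensors (∑ i, n i) β) (w : Fin r → U) :
    ∑ τ, β τ • c (w ∘ ⇑τ) = 0 := by
  refine second_fundamental (f := fun τ : Equiv.Perm (Fin r) => c (w ∘ ⇑τ)) (fun τ J hJ => ?_) hβ
  -- a kind with many letters in the positions `J`
  obtain ⟨i, hi⟩ : ∃ i, n i + 1 ≤ (J.filter fun j => κ ((w ∘ τ) j) = i).card := by
    by_contra hcon
    push Not at hcon
    have h1 := Finset.card_eq_sum_card_fiberwise (s := J) (t := univ)
      (f := fun j => κ ((w ∘ τ) j)) (fun _ _ => Finset.mem_coe.2 (mem_univ _))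
    have h2 : ∑ i, (J.filter fun j => κ ((w ∘ τ) j) = i).card ≤ ∑ i, n i :=
      Finset.sum_le_sum fun i _ => by
        have := hcon i
        omega
    omega
  obtain ⟨J', hJ', hcard⟩ := Finset.exists_subset_card_eq hi
  have h1 : J' ⊆ J := hJ'.trans (Finset.filter_subset _ _)
  have h2 := abs_alt (c := c) h1 (w ∘ τ) fun π => by
    refine H i _ (by rw [Finset.card_map, hcard]) _ fun j hj => ?_
    rw [Finset.mem_map] at hj
    obtain ⟨a, ha, rfl⟩ := hj
    have h3 := (Finset.mem_filter.1 (hJ' ha)).2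
    simpa using h3
  exact h2

/-- the permutation of the blocks -/
def blk {N m : ℕ} (e : Fin N × Fin m ≃ Fin r) (τ : Equiv.Perm (Fin N)) : Equiv.Perm (Fin r) :=
  (e.symm.trans (Equiv.prodCongr τ (Equiv.refl _))).trans e

theorem blk_apply {N m : ℕ} (e : Fin N × Fin m ≃ Fin r) (τ : Equiv.Perm (Fin N)) (a : Fin N)
    (j : Fin m) : blk e τ (e (a, j)) = e (τ a, j) := by
  simp [blk]

theorem blk_mul {N m : ℕ} (e : Fin N × Fin m ≃ Fin r) (τ τ' : Equiv.Perm (Fin N)) :
    blk e (τ * τ') = blk e τ * blk e τ' := by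
  ext i
  obtain ⟨⟨a, j⟩, rfl⟩ := e.surjective i
  rw [Equiv.Perm.mul_apply, blk_apply, blk_apply, blk_apply]
  rfl

/-- the alternating sum of the permutations of the blocks, as an element of the group algebra -/
noncomputable def bsgn {N m : ℕ} (e : Fin N × Fin m ≃ Fin r) (σ : Equiv.Perm (Fin r)) : ℚ :=
  ∑ τ : Equiv.Perm (Fin N), if blk e τ = σ then ((Equiv.Perm.sign τ : ℤ) : ℚ) else 0

theorem bsgn_sum {N m : ℕ} (e : Fin N × Fin m ≃ Fin r) (g : Equiv.Perm (Fin r) → T) :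
    ∑ σ, bsgn e σ • g σ = ∑ τ : Equiv.Perm (Fin N), ((Equiv.Perm.sign τ : ℤ) : ℚ) • g (blk e τ) := by
  unfold bsgn
  simp_rw [Finset.sum_smul]
  rw [Finset.sum_comm]
  refine Finset.sum_congr rfl fun τ _ => ?_
  rw [Finset.sum_eq_single (blk e τ)]
  · rw [if_pos rfl]
  · intro σ _ hσ
    rw [if_neg (Ne.symm hσ), zero_smul]
  · intro h
    exact absurd (mem_univ _) h

theorem bsgn_kills {N m n : ℕ} (e : Fin N × Fin m ≃ Fin r) (hN : n ^ m < N) :
    KillsTensors n (bsgn e) := by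
  intro w w'
  rw [Finset.sum_filter]
  have h1 : ∑ σ : Equiv.Perm (Fin r), (if w ∘ ⇑σ = w' then bsgn e σ else 0) =
      ∑ σ, bsgn e σ • (if w ∘ ⇑σ = w' then (1 : ℚ) else 0) := by
    refine Finset.sum_congr rfl fun σ _ => ?_
    rw [smul_eq_mul, mul_ite, mul_one, mul_zero]
  rw [h1, bsgn_sum]
  obtain ⟨a, b, hab, hw⟩ := Fintype.exists_ne_map_eq_of_card_lt
    (fun a : Fin N => fun j : Fin m => w (e (a, j))) (by simpa using hN)
  have hsw : w ∘ ⇑(blk e (Equiv.swap a b)) = w := by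
    funext i
    obtain ⟨⟨x, j⟩, rfl⟩ := e.surjective i
    rw [Function.comp_apply, blk_apply]
    rcases eq_or_ne x a with rfl | h
    · rw [Equiv.swap_apply_left]
      exact (congrFun hw j).symm
    · rcases eq_or_ne x b with rfl | h'
      · rw [Equiv.swap_apply_right]
        exact congrFun hw j
      · rw [Equiv.swap_apply_of_ne_of_ne h h']
  refine Finset.sum_involution (fun τ _ => Equiv.swap a b * τ) ?_ ?_ ?_ ?_
  · intro τ _
    rw [blk_mul, Equiv.Perm.coe_mul, ← Function.comp_assoc, hsw, Equiv.Perm.sign_mul,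
      Equiv.Perm.sign_swap hab]
    push_cast
    ring
  · intro τ _ _ h
    have h2 : Equiv.swap a b = 1 := mul_eq_right.1 h
    exact hab (Equiv.swap_eq_one_iff.1 h2)
  · intro τ _
    exact mem_univ _
  · intro τ _
    rw [← mul_assoc, Equiv.swap_mul_self, one_mul]

/-- **Blocks of letters.** -/
theorem alt_blocks {s : ℕ} (κ : U → Fin s) (n : Fin s → ℕ) {N m : ℕ}
    (hN : (∑ i, n i) ^ m < N) (e : Fin N × Fin m ≃ Fin r) (c : (Fin r → U) → T)
    (H : ∀ (i : Fin s) (J : Finset (Fin r)), J.card = n i + 1 → ∀ w : Fin r → U,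
      (∀ j ∈ J, κ (w j) = i) →
      ∑ σ ∈ fixing J, ((Equiv.Perm.sign σ : ℤ) : ℚ) • c (w ∘ σ) = 0)
    (y : Fin N → Fin m → U) :
    ∑ τ : Equiv.Perm (Fin N), ((Equiv.Perm.sign τ : ℤ) : ℚ) •
      c (fun i => y (τ (e.symm i).1) (e.symm i).2) = 0 := by
  have h1 := kill_words κ n c H (bsgn_kills e hN) (fun i => y (e.symm i).1 (e.symm i).2)
  rw [bsgn_sum e (fun σ => c ((fun i => y (e.symm i).1 (e.symm i).2) ∘ ⇑σ))] at h1
  rw [← h1]
  refine Finset.sum_congr rfl fun τ _ => ?_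
  congr 2
  funext i
  obtain ⟨⟨a, j⟩, rfl⟩ := e.surjective i
  rw [Function.comp_apply, blk_apply, e.symm_apply_apply, e.symm_apply_apply]

end Pool.Agent.KMix
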