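import Pool.Agent.GT.Defs
import Pool.Agent.CUB.Defs

/-!
# Products of K3 surfaces of degree four and two, and of varieties of lines

`Var k` are the varieties over the field `k` which occur as factors, `X.Pts K` are the points of the
variety `X` with coordinates in the field `K`. A curve is given by its function field `K`, a
rational map from this curve to a variety `X` is a point of `X` with coordinates in `K`.
-/

set_option autoImplicit false

noncomputable section

namespace Pool.Agent.KMix

open Pool.Agent.ZCyc Pool.Agent.Dess
open scoped Classical LinearAlgebra.Projectivization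

variable {k : Type} [Field k]

/-- The points with coordinates in `K` of the double plane `y ^ 2 = F(x₀, x₁, x₂)`, a surface in the
weighted projective space `ℙ(1, 1, 1, 3)`, `F` is a form of degree six: `(x, y)` is the point with
the weighted homogeneous coordinates `x.rep`, `y`. -/
def Dp (F : MvPolynomial (Fin 3) k) (K : Type) [Field K] [Algebra k K] : Type :=
  {p : ℙ K (Fin 3 → K) × K // p.2 ^ 2 = MvPolynomial.aeval p.1.rep F}

/-- The point `y` of the double plane is the value of the point `x` at the place `v`: other weighted
homogeneous coordinates of `x` have the coordinates of `y` as their values. -/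
def Dp.IsVal {F : MvPolynomial (Fin 3) k} {K : Type} [Field K] [Algebra k K] (v : Place k K)
    (x : Dp F K) (y : Dp F k) : Prop :=
  ∃ l : K, (∀ i, v.At (l * x.1.1.rep i) (y.1.1.rep i)) ∧ v.At (l ^ 3 * x.1.2) y.1.2

/-- The varieties which occur as factors. -/
inductive Var (k : Type) [Field k] : Type
  /-- the quartic surface with the equation `F` in the projective space of dimension three -/
  | quartic (F : MvPolynomial (Fin 4) k) : Var k
  /-- the double plane `y ^ 2 = F(x₀, x₁, x₂)` -/
  | plane (F : MvPolynomial (Fin 3) k) : Var k
  /-- the variety of the lines on the cubic fourfold with the equation `F` -/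
  | lines (F : MvPolynomial (Fin 6) k) : Var k

/-- the partial derivatives of `F` have no common zero but the origin -/
def NonSing {n : ℕ} (F : MvPolynomial (Fin n) k) : Prop :=
  ∀ x : Fin n → k, (∀ i, MvPolynomial.eval x (MvPolynomial.pderiv i F) = 0) → x = 0

/-- The form `F` has the degree `4` (quartic surface), `6` (double plane) or `3` (lines on a cubic
fourfold), and is nonsingular. -/
def Var.Smooth : Var k → Prop
  | .quartic F => F.IsHomogeneous 4 ∧ NonSing F
  | .plane F => F.IsHomogeneous 6 ∧ NonSing F
  | .lines F => F.IsHomogeneous 3 ∧ NonSing F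

/-- the points of `X` with coordinates in `K` -/
def Var.Pts (X : Var k) (K : Type) [Field K] [Algebra k K] : Type :=
  match X with
  | .quartic F => GT.Pt (m := 3) {F} K
  | .plane F => Dp F K
  | .lines F => CUB.Ln F K

/-- the point `y` of `X` is the value of the point `x` at the place `v` -/
def Var.IsVal (X : Var k) {K : Type} [Field K] [Algebra k K] (v : Place k K) (x : X.Pts K)
    (y : X.Pts k) : Prop :=
  match X, x, y with
  | .quartic _, x, y => GT.IsVal v x y
  | .plane _, x, y => Dp.IsVal v x y
  | .lines _, x, y => CUB.IsVal v x y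

/-- The zero-cycles on the `N`-th power of the product of the varieties `X 0`, ..., `X (m - 1)` which
are rationally equivalent to zero: the span of the push-forwards of the divisors `D` of all rational
functions `f` on all smooth projective curves (with the function field `K`) by all maps `x`. -/
def Rat {m : ℕ} (X : Fin m → Var k) (N : ℕ) :
    Submodule ℚ ((Fin N → ∀ a, (X a).Pts k) →₀ ℚ) :=
  Submodule.span ℚ {z | ∃ (K : Type) (_ : Field K) (_ : Algebra k K) (_ : IsCurve k K)
    (x : Fin N → ∀ a, (X a).Pts K) (y : Place k K → Fin N → ∀ a, (X a).Pts k) (f : K)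
    (D : Place k K →₀ ℤ), f ≠ 0 ∧ (∀ v, HasOrd v f (D v)) ∧
    (∀ v i a, (X a).IsVal v (x i a) (y v i a)) ∧
    z = D.sum fun v c => Finsupp.single (y v) (c : ℚ)}

/-- the same for the powers of one variety -/
def Rat1 (X : Var k) (N : ℕ) : Submodule ℚ ((Fin N → X.Pts k) →₀ ℚ) :=
  Submodule.span ℚ {z | ∃ (K : Type) (_ : Field K) (_ : Algebra k K) (_ : IsCurve k K)
    (x : Fin N → X.Pts K) (y : Place k K → Fin N → X.Pts k) (f : K)
    (D : Place k K →₀ ℤ), f ≠ 0 ∧ (∀ v, HasOrd v f (D v)) ∧
    (∀ v i, X.IsVal v (x i) (y v i)) ∧
    z = D.sum fun v c => Finsupp.single (y v) (c : ℚ)}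

/-- points over `k` are points over `K` -/
def Base (X : Var k) : Prop :=
  ∀ (K : Type) [Field K] [Algebra k K], IsCurve k K → ∀ y : X.Pts k, ∃ x : X.Pts K,
    ∀ v : Place k K, X.IsVal v x y

/-- alternating sums of sufficiently many points are zero -/
def Fin1 (X : Var k) : Prop :=
  ∃ n : ℕ, 0 < n ∧ ∀ x : Fin n → X.Pts k,
    CUB.alt (fun j => Finsupp.single (x j) (1 : ℚ)) ∈ Rat1 X n

end Pool.Agent.KMix
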