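import Pool.Agent.KMix.Defs
import Pool.Agent.CUB.AltC

/-!
# Cycles of degree zero and all cycles

It is sufficient to consider the alternating sums of cycles of degree zero.
-/

set_option autoImplicit false

noncomputable section

namespace Pool.Agent.KMix

open Pool.Agent.ZCyc Pool.Agent.Dess Pool.Agent.CUB
open scoped Classical

variable {k : Type} [Field k]

theorem rsys1 {X : Var k} (hB : Base X) : RSys (Rat1 X) ⊥ where
  update := by
    intro w hw N j c
    rw [Submodule.mem_bot] at hw
    rw [hw, Finsupp.mapDomain_zero]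
    exact Submodule.zero_mem _
  perm := by
    intro N z hz σ
    have h1 : Rat1 X N ≤ (Rat1 X N).comap (Finsupp.lmapDomain ℚ ℚ
        fun (x : Fin N → X.Pts k) j => x (σ j)) := by
      refine Submodule.span_le.2 ?_
      rintro _ ⟨K, i1, i2, i3, x, y, f, D, hf, hD, hval, rfl⟩
      change Finsupp.lmapDomain ℚ ℚ _ _ ∈ Rat1 X N
      rw [map_finsuppSum]
      refine Submodule.subset_span ⟨K, i1, i2, i3, fun j => x (σ j), fun v j => y v (σ j), f, D,
        hf, hD, fun v i => hval v (σ i), ?_⟩
      exact Finsupp.sum_congr fun v _ => by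
        rw [Finsupp.lmapDomain_apply, Finsupp.mapDomain_single]
    exact h1 hz
  append := by
    intro N z hz M c
    have h1 : Rat1 X N ≤ (Rat1 X (N + M)).comap (Finsupp.lmapDomain ℚ ℚ
        fun (x : Fin N → X.Pts k) => Fin.append x c) := by
      refine Submodule.span_le.2 ?_
      rintro _ ⟨K, i1, i2, i3, x, y, f, D, hf, hD, hval, rfl⟩
      choose xb hxb using fun i => hB K i3 (c i)
      change Finsupp.lmapDomain ℚ ℚ _ _ ∈ Rat1 X (N + M)
      rw [map_finsuppSum]
      refine Submodule.subset_span ⟨K, i1, i2, i3, Fin.append x xb, fun v => Fin.append (y v) c,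
        f, D, hf, hD, fun v i => ?_, ?_⟩
      · change X.IsVal v (Fin.append x xb i) (Fin.append (y v) c i)
        induction i using Fin.addCases with
        | left i =>
          rw [Fin.append_left, Fin.append_left]
          exact hval v i
        | right i =>
          rw [Fin.append_right, Fin.append_right]
          exact hxb i v
      · exact Finsupp.sum_congr fun v _ => by
          rw [Finsupp.lmapDomain_apply, Finsupp.mapDomain_single]
    exact h1 hz

/-- from cycles of degree zero to all points -/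
theorem fin_of_deg {X : Var k} (hB : Base X) {n : ℕ}
    (h : ∀ z : Fin n → (X.Pts k →₀ ℚ), (∀ j, ((z j).sum fun _ a => a) = 0) →
      alt z ∈ Rat1 X n) : Fin1 X := by
  rcases isEmpty_or_nonempty (X.Pts k) with he | ⟨⟨l₀⟩⟩
  · refine ⟨1, one_pos, fun x => ?_⟩
    exact he.elim (x 0)
  let A : Submodule ℚ (X.Pts k →₀ ℚ) :=
    LinearMap.ker (Finsupp.linearCombination ℚ fun _ : X.Pts k => (1 : ℚ))
  let B : Submodule ℚ (X.Pts k →₀ ℚ) := Submodule.span ℚ {Finsupp.single l₀ (1 : ℚ)}
  have hA : ∀ z : Fin n → (X.Pts k →₀ ℚ), (∀ j, z j ∈ A) → alt z ∈ Rat1 X n := by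
    intro z hz
    refine h z fun j => ?_
    have h := LinearMap.mem_ker.1 (hz j)
    rw [Finsupp.linearCombination_apply] at h
    simpa using h
  have hB' : ∀ z : Fin 2 → (X.Pts k →₀ ℚ), (∀ j, z j ∈ B) → alt z ∈ Rat1 X 2 := by
    intro z hz
    refine alt_span (G := {Finsupp.single l₀ (1 : ℚ)}) ?_ z hz
    intro w hw
    have hw' : w = fun _ => Finsupp.single l₀ (1 : ℚ) := funext fun j => hw j
    have h0 : alt w = 0 := by
      rw [hw']
      unfold alt
      rw [← Finset.sum_smul]
      have : ∑ τ : Equiv.Perm (Fin 2), ((Equiv.Perm.sign τ : ℤˣ) : ℤ) = 0 := by decide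
      rw [this, zero_smul]
    rw [h0]
    exact Submodule.zero_mem _
  refine ⟨n + 2, by omega, fun x => alt_sup (rsys1 hB) hA hB' le_rfl _ fun j => ?_⟩
  have h1 : Finsupp.single (x j) (1 : ℚ) = (Finsupp.single (x j) (1 : ℚ) -
      Finsupp.single l₀ (1 : ℚ)) + Finsupp.single l₀ (1 : ℚ) := by
    rw [sub_add_cancel]
  rw [h1]
  refine Submodule.add_mem _ ?_ ?_
  · refine Submodule.mem_sup_left (Submodule.mem_sup_right ?_)
    change _ ∈ LinearMap.ker _
    rw [LinearMap.mem_ker, map_sub, Finsupp.linearCombination_single,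
      Finsupp.linearCombination_single]
    simp
  · exact Submodule.mem_sup_right (Submodule.mem_span_singleton_self _)

end Pool.Agent.KMix
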