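import Pool.Agent.KMix.Abs
import Pool.Agent.KMix.Defs
import Pool.Agent.CUB.AltC
import Pool.Agent.FLN.Cos
import Pool.Agent.GT.ExtA

/-!
# Products of varieties of different types

If the alternating sums of `n a` points of the variety `X a` are rationally equivalent to zero, for
all `a`, then so are the alternating sums of `N` zero-cycles on the product of the varieties `X a`,
for `N` large.
-/

set_option autoImplicit false

noncomputable section

namespace Pool.Agent.KMix

open Pool.Agent.ZCyc Pool.Agent.Dess Pool.Agent.CUB Pool.Agent.ZIso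
open scoped Classical

variable {k : Type} [Field k] {m : ℕ} {X : Fin m → Var k}

/-- the points with the index `i` in the blocks `g s` are replaced by `t s` -/
private def ins {P : Fin m → Type} {N n : ℕ} (g : Fin n ↪ Fin N) (i : Fin m) (x : Fin N → ∀ a, P a)
    (t : Fin n → P i) : Fin N → ∀ a, P a :=
  fun b => Function.update (x b) i (Function.extend g t (fun b => x b i) b)

private theorem ins_mem (hB : ∀ a, Base (X a)) {N n : ℕ} (g : Fin n ↪ Fin N) (i : Fin m)
    (x : Fin N → ∀ a, (X a).Pts k) {z : (Fin n → (X i).Pts k) →₀ ℚ} (hz : z ∈ Rat1 (X i) n) :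
    Finsupp.mapDomain (ins g i x) z ∈ Rat X N := by
  have h1 : Rat1 (X i) n ≤ (Rat X N).comap (Finsupp.lmapDomain ℚ ℚ (ins g i x)) := by
    refine Submodule.span_le.2 ?_
    rintro _ ⟨K, i1, i2, i3, x₁, y₁, f, D, hf, hD, hval, rfl⟩
    choose xb hxb using fun b a => hB a K i3 (x b a)
    change Finsupp.lmapDomain ℚ ℚ _ _ ∈ Rat X N
    rw [map_finsuppSum]
    refine Submodule.subset_span ⟨K, i1, i2, i3, ins g i xb x₁, fun v => ins g i x (y₁ v), f, D,
      hf, hD, fun v b a => ?_, ?_⟩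
    · change (X a).IsVal v (ins g i xb x₁ b a) (ins g i x (y₁ v) b a)
      unfold ins
      by_cases ha : a = i
      · subst ha
        rw [Function.update_self, Function.update_self]
        by_cases hb : ∃ s, g s = b
        · obtain ⟨s, rfl⟩ := hb
          rw [g.injective.extend_apply, g.injective.extend_apply]
          exact hval v s
        · rw [Function.extend_apply' _ _ _ hb, Function.extend_apply' _ _ _ hb]
          exact hxb b a v
      · rw [Function.update_of_ne ha, Function.update_of_ne ha]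
        exact hxb b a v
    · exact Finsupp.sum_congr fun v _ => by
        rw [Finsupp.lmapDomain_apply, Finsupp.mapDomain_single]
  exact h1 hz

/-- the class of a word; it is zero if the letters are not of the right types -/
private def cw (X : Fin m → Var k) {N r : ℕ} (e : Fin N × Fin m ≃ Fin r)
    (w : Fin r → Σ a, (X a).Pts k) : ((Fin N → ∀ a, (X a).Pts k) →₀ ℚ) ⧸ Rat X N :=
  if h : ∃ x : Fin N → ∀ a, (X a).Pts k, ∀ b a, w (e (b, a)) = ⟨a, x b a⟩ then
    Submodule.Quotient.mk (Finsupp.single h.choose 1)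
  else 0

private theorem cw_pos {N r : ℕ} {e : Fin N × Fin m ≃ Fin r} {w : Fin r → Σ a, (X a).Pts k}
    {x : Fin N → ∀ a, (X a).Pts k} (hx : ∀ b a, w (e (b, a)) = ⟨a, x b a⟩) :
    cw X e w = Submodule.Quotient.mk (Finsupp.single x 1) := by
  have h : ∃ x : Fin N → ∀ a, (X a).Pts k, ∀ b a, w (e (b, a)) = ⟨a, x b a⟩ := ⟨x, hx⟩
  unfold cw
  rw [dif_pos h]
  have h1 : h.choose = x := by
    funext b a
    have h2 := (h.choose_spec b a).symm.trans (hx b a)
    exact eq_of_heq (Sigma.mk.inj_iff.1 h2).2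
  rw [h1]

/-- words of the right types, with permuted letters of the kind `i` -/
private theorem cw_perm {N r n : ℕ} {e : Fin N × Fin m ≃ Fin r} {w : Fin r → Σ a, (X a).Pts k}
    {x : Fin N → ∀ a, (X a).Pts k} (hx : ∀ b a, w (e (b, a)) = ⟨a, x b a⟩) {i : Fin m}
    (g : Fin n ↪ Fin r) (hg : ∀ s, (w (g s)).1 = i) :
    ∃ g' : Fin n ↪ Fin N, ∀ (τ : Equiv.Perm (Fin n)) (ρ : Equiv.Perm (Fin r)),
      (∀ s, ρ (g s) = g (τ s)) → (∀ j, (∀ s, g s ≠ j) → ρ j = j) →
      ∀ b a, (w ∘ ρ) (e (b, a)) = ⟨a, ins g' i x (fun s => x (g' (τ s)) i) b a⟩ := by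
  have h1 : ∀ s, (e.symm (g s)).2 = i := by
    intro s
    have h2 := hx (e.symm (g s)).1 (e.symm (g s)).2
    rw [Prod.mk.eta, e.apply_symm_apply] at h2
    rw [← hg s, h2]
  have h3 : ∀ s, g s = e ((e.symm (g s)).1, i) := by
    intro s
    rw [← h1 s, Prod.mk.eta, e.apply_symm_apply]
  refine ⟨⟨fun s => (e.symm (g s)).1, fun s s' h => g.injective ?_⟩, ?_⟩
  · rw [h3 s, h3 s', show (e.symm (g s)).1 = (e.symm (g s')).1 from h]
  · intro τ ρ hρ1 hρ2 b a
    rw [Function.comp_apply]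
    unfold ins
    by_cases hs : ∃ s, g s = e (b, a)
    · obtain ⟨s, hs⟩ := hs
      have h4 : (b, a) = ((e.symm (g s)).1, i) := by
        apply e.injective
        rw [← hs, ← h3]
      obtain ⟨rfl, rfl⟩ := Prod.mk.inj h4
      rw [Function.update_self, ← hs, hρ1, h3 (τ s), hx]
      have h5 := (⟨fun s => (e.symm (g s)).1, fun s s' h => g.injective (by
        rw [h3 s, h3 s', show (e.symm (g s)).1 = (e.symm (g s')).1 from h])⟩ :
          Fin n ↪ Fin N).injective.extend_apply
        (fun s => x (e.symm (g (τ s))).1 a) (fun b => x b a) s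
      exact congrArg (Sigma.mk a) h5.symm
    · push Not at hs
      rw [hρ2 _ hs, hx]
      by_cases ha : a = i
      · subst ha
        rw [Function.update_self, Function.extend_apply']
        rintro ⟨s, hsb⟩
        refine hs s ?_
        rw [h3 s]
        exact congrArg (fun b => e (b, a)) hsb
      · rw [Function.update_of_ne ha]

private theorem alt_single {T : Type} {n : ℕ} (x : Fin n → T) :
    alt (fun j => Finsupp.single (x j) (1 : ℚ)) =
      ∑ τ : Equiv.Perm (Fin n), (Equiv.Perm.sign τ : ℤ) •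
        Finsupp.single (fun j => x (τ j)) (1 : ℚ) := by
  unfold alt
  refine Finset.sum_congr rfl fun τ _ => ?_
  congr 1
  have h := GT.ext_single (fun j => x (τ j)) fun _ => (1 : ℚ)
  rw [Finset.prod_const_one] at h
  exact h

private theorem cw_alt (hB : ∀ a, Base (X a)) {N r n : ℕ} (e : Fin N × Fin m ≃ Fin r) {i : Fin m}
    (hn : ∀ x : Fin n → (X i).Pts k,
      alt (fun j => Finsupp.single (x j) (1 : ℚ)) ∈ Rat1 (X i) n)
    {J : Finset (Fin r)} (hJ : J.card = n) {w : Fin r → Σ a, (X a).Pts k}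
    (hw : ∀ j ∈ J, (w j).1 = i) :
    ∑ σ ∈ fixing J, ((Equiv.Perm.sign σ : ℤ) : ℚ) • cw X e (w ∘ σ) = 0 := by
  let E₀ := (J.equivFinOfCardEq hJ).symm
  let g : Fin n ↪ Fin r := ⟨fun s => (E₀ s : Fin r), fun s s' h => E₀.injective (Subtype.ext h)⟩
  have hgJ : J = Finset.univ.map g := by
    ext j
    rw [Finset.mem_map]
    constructor
    · intro hj
      exact ⟨E₀.symm ⟨j, hj⟩, Finset.mem_univ _, by simp [g]⟩
    · rintro ⟨s, -, rfl⟩
      exact (E₀ s).2
  have hg : ∀ s, (w (g s)).1 = i := fun s => hw _ (E₀ s).2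
  obtain ⟨E, hE1, hE2, hE3, hE4⟩ := FLN.fixing_emb
    (T := ((Fin N → ∀ a, (X a).Pts k) →₀ ℚ) ⧸ Rat X N) g
  rw [hgJ, hE4]
  by_cases hx : ∃ x : Fin N → ∀ a, (X a).Pts k, ∀ b a, w (e (b, a)) = ⟨a, x b a⟩
  · obtain ⟨x, hx⟩ := hx
    obtain ⟨g', hg'⟩ := cw_perm hx g hg
    have h1 := ins_mem hB g' i x (hn fun s => x (g' s) i)
    rw [alt_single, ← Finsupp.lmapDomain_apply ℚ ℚ, map_sum] at h1
    rw [← Submodule.Quotient.mk_eq_zero, ← Submodule.mkQ_apply, map_sum] at h1
    rw [← h1]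
    refine Finset.sum_congr rfl fun τ _ => ?_
    rw [cw_pos (hg' τ (E τ) (fun s => hE1 τ s) fun j hj => hE2 τ j hj), hE3, map_zsmul,
      map_zsmul, Finsupp.lmapDomain_apply, Finsupp.mapDomain_single, Int.cast_smul_eq_zsmul,
      Submodule.mkQ_apply]
  · refine Finset.sum_eq_zero fun τ _ => ?_
    have h1 : ¬ ∃ x : Fin N → ∀ a, (X a).Pts k, ∀ b a, (w ∘ ⇑(E τ)) (e (b, a)) = ⟨a, x b a⟩ := by
      rintro ⟨x, hx'⟩
      obtain ⟨g', hg'⟩ := cw_perm hx' g (fun s => by rw [Function.comp_apply, hE1]; exact hg _)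
      have h2 := hg' τ⁻¹ (E τ)⁻¹ (fun s => by
        rw [Equiv.Perm.inv_eq_iff_eq, hE1]
        simp) fun j hj => by
        rw [Equiv.Perm.inv_eq_iff_eq, hE2 τ j hj]
      refine hx ⟨ins g' i x (fun s => x (g' (τ⁻¹ s)) i), fun b a => ?_⟩
      rw [← h2 b a]
      simp
    unfold cw
    rw [dif_neg h1, smul_zero]

theorem mixed (hB : ∀ a, Base (X a)) (hA : ∀ a, Fin1 (X a)) : ∃ N₀ : ℕ, ∀ N ≥ N₀,
    ∀ z : Fin N → ((∀ a, (X a).Pts k) →₀ ℚ), alt z ∈ Rat X N := by
  choose n hn0 hn using hA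
  refine ⟨(∑ a, (n a - 1)) ^ m + 1, fun N hN z => ?_⟩
  refine alt_span (G := Set.range fun x => Finsupp.single x (1 : ℚ)) (fun z hz => ?_) z
    fun j => ?_
  · choose x hx using hz
    have hz' : z = fun j => Finsupp.single (x j) (1 : ℚ) := funext fun j => (hx j).symm
    have h1 := alt_blocks (U := Σ a, (X a).Pts k) (κ := Sigma.fst) (fun a => n a - 1)
      (Nat.lt_of_succ_le hN) finProdFinEquiv (cw X finProdFinEquiv)
      (fun i J hJ w hw => cw_alt hB finProdFinEquiv (hn i) (by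
        rw [hJ]
        have := hn0 i
        omega) hw) fun b a => ⟨a, x b a⟩
    rw [hz', alt_single, ← Submodule.Quotient.mk_eq_zero, ← Submodule.mkQ_apply, map_sum, ← h1]
    refine Finset.sum_congr rfl fun τ _ => ?_
    rw [map_zsmul, Int.cast_smul_eq_zsmul, Submodule.mkQ_apply,
      cw_pos (x := fun b => x (τ b)) fun b a => by rw [Equiv.symm_apply_apply]]
  · rw [← Finsupp.sum_single (z j)]
    refine Submodule.sum_mem _ fun x _ => ?_
    have h1 : Finsupp.single x (z j x) = (z j x) • Finsupp.single x (1 : ℚ) := by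
      rw [Finsupp.smul_single, smul_eq_mul, mul_one]
    rw [h1]
    exact Submodule.smul_mem _ _ (Submodule.subset_span ⟨x, rfl⟩)

end Pool.Agent.KMix
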