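import Pool.Agent.KMix.Gen
import Pool.Agent.KMix.Quartic
import Pool.Agent.KMix.Lines
import Pool.Agent.KMix.Plane

/-!
# The theorem
-/

set_option autoImplicit false

noncomputable section

namespace Pool.Agent.KMix

open Pool.Agent.ZCyc Pool.Agent.Dess
open scoped Classical

variable {k : Type} [Field k] [IsAlgClosed k] [CharZero k]

theorem base {X : Var k} (hX : X.Smooth) : Base X := by
  cases X with
  | quartic F => exact quartic_base hX
  | plane F => exact plane_base hX
  | lines F => exact lines_base hX

theorem fin {X : Var k} (hX : X.Smooth) : Fin1 X := by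
  cases X with
  | quartic F => exact quartic_fin hX
  | plane F => exact plane_fin hX
  | lines F => exact lines_fin hX

/-- **Products of K3 surfaces of the degrees four and two and of varieties of lines.** -/
theorem main {m : ℕ} (X : Fin m → Var k) (hX : ∀ a, (X a).Smooth) : ∃ N₀ : ℕ, ∀ N ≥ N₀,
    ∀ z : Fin N → ((∀ a, (X a).Pts k) →₀ ℚ),
      ∑ τ : Equiv.Perm (Fin N), ((Equiv.Perm.sign τ : ℤˣ) : ℤ) • GT.ext (fun j => z (τ j)) ∈
        Rat X N :=
  mixed (fun a => base (hX a)) fun a => fin (hX a)

end Pool.Agent.KMix
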